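import Mathlib

set_option autoImplicit false

open Finset Polynomial

namespace Pool.Agent.Results.MP_bdd522_nt.FailB

/-- The generalized central trinomial coefficient `T_n(b,c)`: the coefficient of `t^n` in
`(t^2+bt+c)^n`. -/
noncomputable def T (b c : ℤ) (n : ℕ) : ℤ :=
  ((X ^ 2 + C b * X + C c : ℤ[X]) ^ n).coeff n

/-- `x ≡ y (mod p^m)` for rationals: the difference lies in `p^m ℤ_(p)`. -/
def Congr (p m : ℕ) (x y : ℚ) : Prop :=
  ∃ a b : ℤ, ¬ (p : ℤ) ∣ b ∧ x - y = (p : ℚ) ^ m * ((a : ℚ) / (b : ℚ))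

/-- The second congruence of part (b) at the prime `p`. -/
def SecondB (p : ℕ) [Fact p.Prime] : Prop :=
  Congr p 3 (∑ k ∈ range p, (3 * (k : ℚ) + 1) * (T 2 3 k : ℚ) ^ 3 / (-64) ^ k)
    ((p : ℚ) * (legendreSym p (-2) : ℚ))

lemma coeff_aux (c : ℤ) (m : ℕ) :
    ((X ^ 2 + C c : ℤ[X]) ^ m).coeff m = if 2 ∣ m then c ^ (m / 2) * (m.choose (m / 2) : ℤ) else 0 := by
  have h : (X ^ 2 + C c : ℤ[X]) ^ m = expand ℤ 2 ((X + C c) ^ m) := by
    simp [expand_X]
  rw [h, coeff_expand (by norm_num), coeff_X_add_C_pow]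
  split_ifs with h2
  · obtain ⟨j, rfl⟩ := h2
    have h3 : 2 * j / 2 = j := by omega
    have h4 : 2 * j - j = j := by omega
    rw [h3, h4]
  · rfl

/-- The explicit formula of the problem file. -/
lemma T_eq (b c : ℤ) (n : ℕ) :
    T b c n = ∑ j ∈ range (n / 2 + 1),
      (n.choose (2 * j) : ℤ) * ((2 * j).choose j : ℤ) * c ^ j * b ^ (n - 2 * j) := by
  unfold T
  have h1 : (X ^ 2 + C b * X + C c : ℤ[X]) = (X ^ 2 + C c) + C b * X := by ring
  rw [h1, add_pow, finsetSum_coeff]
  have h2 : ∀ m ∈ range (n + 1),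
      (((X ^ 2 + C c : ℤ[X]) ^ m * (C b * X) ^ (n - m) * (n.choose m : ℤ[X])).coeff n)
        = if 2 ∣ m then (n.choose m : ℤ) * (m.choose (m / 2) : ℤ) * c ^ (m / 2) * b ^ (n - m)
          else 0 := by
    intro m hm
    have hm' : m ≤ n := by simpa [Nat.lt_succ_iff] using hm
    have h3 : (X ^ 2 + C c : ℤ[X]) ^ m * (C b * X) ^ (n - m) * (n.choose m : ℤ[X])
        = C (b ^ (n - m) * (n.choose m : ℤ)) * ((X ^ 2 + C c) ^ m * X ^ (n - m)) := by
      rw [mul_pow, map_mul, map_pow]
      simp only [map_natCast]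
      ring
    rw [h3, coeff_C_mul, coeff_mul_X_pow', if_pos (by omega)]
    have h5 : n - (n - m) = m := by omega
    rw [h5, coeff_aux]
    split_ifs
    · ring
    · ring
  rw [sum_congr rfl h2, ← sum_filter]
  symm
  apply sum_bij (fun j _ => 2 * j)
  · intro j hj
    simp only [mem_filter, mem_range] at hj ⊢
    constructor
    · omega
    · exact dvd_mul_right 2 j
  · intro i _ j _ hij
    have : 2 * i = 2 * j := hij
    omega
  · intro m hm
    simp only [mem_filter, mem_range] at hm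
    obtain ⟨hm1, j, rfl⟩ := hm
    exact ⟨j, by simp only [mem_range]; omega, rfl⟩
  · intro j hj
    have h3 : 2 * j / 2 = j := by omega
    simp only [h3]

lemma T_val0 : T 2 3 0 = 1 := by rw [T_eq]; decide +kernel
lemma T_val1 : T 2 3 1 = 2 := by rw [T_eq]; decide +kernel
lemma T_val2 : T 2 3 2 = 10 := by rw [T_eq]; decide +kernel
lemma T_val3 : T 2 3 3 = 44 := by rw [T_eq]; decide +kernel
lemma T_val4 : T 2 3 4 = 214 := by rw [T_eq]; decide +kernel
lemma T_val5 : T 2 3 5 = 1052 := by rw [T_eq]; decide +kernel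
lemma T_val6 : T 2 3 6 = 5284 := by rw [T_eq]; decide +kernel
lemma T_val7 : T 2 3 7 = 26840 := by rw [T_eq]; decide +kernel
lemma T_val8 : T 2 3 8 = 137638 := by rw [T_eq]; decide +kernel
lemma T_val9 : T 2 3 9 = 710828 := by rw [T_eq]; decide +kernel
lemma T_val10 : T 2 3 10 = 3692140 := by rw [T_eq]; decide +kernel
lemma T_val11 : T 2 3 11 = 19266920 := by rw [T_eq]; decide +kernel
lemma T_val12 : T 2 3 12 = 100932220 := by rw [T_eq]; decide +kernel
lemma T_val13 : T 2 3 13 = 530479640 := by rw [T_eq]; decide +kernel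
lemma T_val14 : T 2 3 14 = 2795917960 := by rw [T_eq]; decide +kernel
lemma T_val15 : T 2 3 15 = 14771797424 := by rw [T_eq]; decide +kernel
lemma T_val16 : T 2 3 16 = 78210099718 := by rw [T_eq]; decide +kernel

/-- If `x - y = N / D` with `D ≠ 0` and `p^m ∤ N`, then `x ≢ y (mod p^m)`. -/
lemma not_congr {p m : ℕ} (hp : p.Prime) {x y : ℚ} {N D : ℤ} (hD : D ≠ 0)
    (hxy : x - y = (N : ℚ) / (D : ℚ)) (hN : ¬ ((p : ℤ) ^ m) ∣ N) : ¬ Congr p m x y := by
  rintro ⟨a, b, hb, h⟩
  have hb0 : b ≠ 0 := by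
    rintro rfl
    exact hb (dvd_zero _)
  rw [hxy] at h
  have hbq : (b : ℚ) ≠ 0 := by exact_mod_cast hb0
  have hDq : (D : ℚ) ≠ 0 := by exact_mod_cast hD
  have h1 : (N : ℚ) * b = (p : ℚ) ^ m * a * D := by
    field_simp at h
    linarith
  have h2 : N * b = (p : ℤ) ^ m * a * D := by exact_mod_cast h1
  have h3 : ((p : ℤ) ^ m) ∣ N * b := ⟨a * D, by rw [h2]; ring⟩
  have hpi : Prime (p : ℤ) := Nat.prime_iff_prime_int.mp hp
  have hcop : IsCoprime ((p : ℤ) ^ m) b :=
    IsCoprime.pow_left ((Prime.coprime_iff_not_dvd hpi).mpr hb)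
  exact hN (hcop.dvd_of_dvd_mul_right h3)

lemma fail5 [Fact (Nat.Prime 5)] : ¬ SecondB 5 := by
  have hl : legendreSym 5 (-2) = -1 := by norm_num
  unfold SecondB
  refine not_congr (N := 24229175) (D := 2097152) (by norm_num) (by norm_num) ?_ (by norm_num)
  rw [hl]
  simp only [sum_range_succ, sum_range_zero, T_val0, T_val1, T_val2, T_val3, T_val4]
  norm_num

lemma fail7 [Fact (Nat.Prime 7)] : ¬ SecondB 7 := by
  have hl : legendreSym 7 (-2) = -1 := by norm_num
  unfold SecondB
  refine not_congr (N := 39723563579) (D := 1073741824) (by norm_num) (by norm_num) ?_ (by norm_num)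
  rw [hl]
  simp only [sum_range_succ, sum_range_zero, T_val0, T_val1, T_val2, T_val3, T_val4, T_val5, T_val6]
  norm_num

lemma fail11 [Fact (Nat.Prime 11)] : ¬ SecondB 11 := by
  have hl : legendreSym 11 (-2) = 1 := by norm_num
  unfold SecondB
  refine not_congr (N := 17094181258149172221) (D := 18014398509481984) (by norm_num) (by norm_num) ?_ (by norm_num)
  rw [hl]
  simp only [sum_range_succ, sum_range_zero, T_val0, T_val1, T_val2, T_val3, T_val4, T_val5, T_val6, T_val7, T_val8, T_val9, T_val10]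
  norm_num

lemma fail13 [Fact (Nat.Prime 13)] : ¬ SecondB 13 := by
  have hl : legendreSym 13 (-2) = -1 := by norm_num
  unfold SecondB
  refine not_congr (N := 423059785830039847911227) (D := 73786976294838206464) (by norm_num) (by norm_num) ?_ (by norm_num)
  rw [hl]
  simp only [sum_range_succ, sum_range_zero, T_val0, T_val1, T_val2, T_val3, T_val4, T_val5, T_val6, T_val7, T_val8, T_val9, T_val10, T_val11, T_val12]
  norm_num

lemma fail17 [Fact (Nat.Prime 17)] : ¬ SecondB 17 := by
  have hl : legendreSym 17 (-2) = 1 := by norm_num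
  unfold SecondB
  refine not_congr (N := 2086012872136747801862209208609835) (D := 9903520314283042199192993792) (by norm_num) (by norm_num) ?_ (by norm_num)
  rw [hl]
  simp only [sum_range_succ, sum_range_zero, T_val0, T_val1, T_val2, T_val3, T_val4, T_val5, T_val6, T_val7, T_val8, T_val9, T_val10, T_val11, T_val12, T_val13, T_val14, T_val15, T_val16]
  norm_num

/-- The second congruence of part (b) fails modulo `p^3` for each of the primes
`5, 7, 11, 13, 17`. -/
theorem result : ∀ (p : ℕ) [Fact p.Prime], 3 < p → p < 19 → ¬ SecondB p := by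
  intro p hp h3 h19
  have hpp : p.Prime := hp.out
  interval_cases p
  · exact absurd hpp (by norm_num)
  · exact fail5
  · exact absurd hpp (by norm_num)
  · exact fail7
  · exact absurd hpp (by norm_num)
  · exact absurd hpp (by norm_num)
  · exact absurd hpp (by norm_num)
  · exact fail11
  · exact absurd hpp (by norm_num)
  · exact fail13
  · exact absurd hpp (by norm_num)
  · exact absurd hpp (by norm_num)
  · exact absurd hpp (by norm_num)
  · exact fail17
  · exact absurd hpp (by norm_num)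

end Pool.Agent.Results.MP_bdd522_nt.FailB
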